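import Pool.Agent.K3h16.FG.Stm
import Pool.Agent.H61.Fu.Num
import Pool.Agent.H39R2.FujNT

/-! FG bricks BIN, GAP, TWO. -/

set_option autoImplicit false

namespace Pool.Agent.K3h10.FG

open MvPolynomial Pool.Agent.R920.WC Pool.Agent.K3h16.FG

/-- every integer is `y s - a p` with `0 ≤ y < p` -/
theorem canon {p s : ℕ} (hp : 1 ≤ p) (h : Nat.Coprime p s) (n : ℤ) :
    ∃ y a : ℤ, 0 ≤ y ∧ y < p ∧ n = y * s - a * p := by
  have hg : (1 : ℤ) = p * Nat.gcdA p s + s * Nat.gcdB p s := by
    have := Nat.gcd_eq_gcd_ab p s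
    rw [h.gcd_eq_one] at this
    exact_mod_cast this
  have hp0 : (p : ℤ) ≠ 0 := by positivity
  refine ⟨(n * Nat.gcdB p s) % p, -(n * Nat.gcdA p s + (n * Nat.gcdB p s) / p * s),
    Int.emod_nonneg _ hp0, Int.emod_lt_of_pos _ (by positivity), ?_⟩
  have h1 := Int.emod_add_mul_ediv (n * Nat.gcdB p s) p
  have h2 : (n * Nat.gcdB p s) % p = n * Nat.gcdB p s - p * (n * Nat.gcdB p s / p) := by linarith
  rw [h2]
  have h3 : n = n * (p * Nat.gcdA p s + s * Nat.gcdB p s) := by rw [← hg, mul_one]
  linear_combination h3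

/-- a gap `n` of `⟨p, s⟩` is `y s - a p` with `1 ≤ y < p`, `1 ≤ a` -/
theorem gap {p s n : ℕ} (hp : 1 ≤ p) (h : Nat.Coprime p s)
    (hn : ∀ x y : ℕ, x * p + y * s ≠ n) :
    ∃ y a : ℕ, 1 ≤ y ∧ y < p ∧ 1 ≤ a ∧ n + a * p = y * s := by
  obtain ⟨y, a, hy, hyp, he⟩ := canon hp h n
  have ha : 1 ≤ a := by
    by_contra hcon
    refine hn (-a).toNat y.toNat ?_
    have h1 : (((-a).toNat : ℕ) : ℤ) = -a := Int.toNat_of_nonneg (by linarith)
    have h2 : ((y.toNat : ℕ) : ℤ) = y := Int.toNat_of_nonneg hy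
    have : (((-a).toNat * p + y.toNat * s : ℕ) : ℤ) = (n : ℤ) := by
      push_cast
      rw [h1, h2, he]
      ring
    exact_mod_cast this
  have hy1 : 1 ≤ y := by
    by_contra hcon
    have h0 : y = 0 := by linarith
    subst h0
    have : (1 : ℤ) * 1 ≤ a * p := mul_le_mul ha (by exact_mod_cast hp) (by norm_num) (by linarith)
    have h3 : (0 : ℤ) ≤ n := by positivity
    linarith
  refine ⟨y.toNat, a.toNat, ?_, ?_, ?_, ?_⟩
  · omega
  · omega
  · omega
  · have h1 : ((a.toNat : ℕ) : ℤ) = a := Int.toNat_of_nonneg (by linarith)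
    have h2 : ((y.toNat : ℕ) : ℤ) = y := Int.toNat_of_nonneg hy
    have : ((n + a.toNat * p : ℕ) : ℤ) = ((y.toNat * s : ℕ) : ℤ) := by
      push_cast
      rw [h1, h2, he]
      ring
    exact_mod_cast this

theorem t_GAP : S_GAP := by
  intro p s b e hp hps hb hcps hcpb hcsb hor he hno
  by_contra hcon
  push Not at hcon
  obtain ⟨b', a', hb1, hb2, ha1, hba⟩ := gap (by omega) hcps hcon
  -- `e - p s`
  have hes : p * s ≤ e := by
    obtain ⟨p', rfl⟩ : ∃ p', p = p' + 2 := ⟨p - 2, by omega⟩
    have : p' + 2 - 1 = p' + 1 := by omega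
    rw [this] at he
    nlinarith
  have hgap2 : ∀ x y : ℕ, x * p + y * s ≠ e - p * s := by
    intro x y h
    refine hno x y 0 ?_
    omega
  obtain ⟨y, al, hy1, hy2, hal, hyal⟩ := gap (by omega) hcps hgap2
  obtain ⟨p', rfl⟩ : ∃ p', p = p' + 2 := ⟨p - 2, by omega⟩
  have hp1 : p' + 2 - 1 = p' + 1 := by omega
  rw [hp1] at he hor
  obtain ⟨E, rfl⟩ : ∃ E, e = (p' + 2) * s + E := ⟨e - (p' + 2) * s, by omega⟩
  have hE : (p' + 2) * s + E - (p' + 2) * s = E := by omega
  rw [hE] at hyal
  -- `y = p - 1`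
  have hyp : y = p' + 1 := by
    by_contra hne
    have h1 : y ≤ p' := by omega
    have h2 : y * s ≤ p' * s := Nat.mul_le_mul_right _ h1
    nlinarith
  subst hyp
  -- `a' < α`
  have haal : a' < al := by
    by_contra hge
    push Not at hge
    obtain ⟨u, rfl⟩ : ∃ u, a' = al + u := ⟨a' - al, by omega⟩
    obtain ⟨w, hw⟩ : ∃ w, p' + 1 = b' + w := ⟨p' + 1 - b', by omega⟩
    refine hno u w 1 ?_
    have h1 : (p' + 1) * s = b' * s + w * s := by rw [hw]; ring
    nlinarith
  rcases hor with h1 | ⟨h1, h2⟩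
  · have h3 : 1 * s ≤ b' * s := Nat.mul_le_mul_right _ hb1
    have h4 : (a' + 1) * (p' + 2) ≤ al * (p' + 2) := Nat.mul_le_mul_right _ haal
    nlinarith
  · have hb'2 : 2 ≤ b' := by
      by_contra hlt
      have : b' = 1 := by omega
      subst this
      have : 1 * (p' + 2) ≤ a' * (p' + 2) := Nat.mul_le_mul_right _ ha1
      omega
    have h3 : 2 * s ≤ b' * s := Nat.mul_le_mul_right _ hb'2
    have h4 : (a' + 1) * (p' + 2) ≤ al * (p' + 2) := Nat.mul_le_mul_right _ haal
    obtain ⟨b₀, rfl⟩ : ∃ b₀, b = b₀ + 1 := ⟨b - 1, by omega⟩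
    have hb0 : b₀ + 1 - 1 = b₀ := by omega
    rw [hb0] at h2
    -- (p-1) b₀ + 1 ≤ p s - al p
    have h5 : (p' + 1) * b₀ + 1 + al * (p' + 2) ≤ (p' + 2) * s := by linarith
    have h6 : 2 * s + (p' + 2) ≤ b₀ + 1 + al * (p' + 2) := by linarith
    have h7 : al * (p' + 2) + 1 ≤ s := by linarith
    have h8 : (p' + 1) * (2 * s + (p' + 2)) ≤ (p' + 1) * (b₀ + 1 + al * (p' + 2)) :=
      Nat.mul_le_mul_left _ h6
    have h9 : p' * (al * (p' + 2) + 1) ≤ p' * s := Nat.mul_le_mul_left _ h7
    have h10 : 0 < (p' + 1) * (p' + 2) := by positivity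
    generalize al * (p' + 2) = A at *
    linarith

theorem t_TWO : S_TWO := by
  intro ι _ a c I i k l hi hk hl hik hli hlk ha hc hmin hgap e he
  have hai := ha i hi
  have hak := ha k hk
  have hco := hc i hi k hk hik
  obtain ⟨u, w, huw⟩ := Pool.Agent.H39R2.Fuj.rep hco (by omega : (a i - 1) * (a k - 1) ≤ e)
  have huw' : u * a i + w * a k = e := by
    rw [← huw]
    ring
  refine ⟨u, w, huw', ?_⟩
  by_contra hcon
  push Not at hcon
  obtain ⟨hu, hw⟩ := hcon
  obtain ⟨y, x, hy1, hy2, hx1, hyx⟩ := gap (by omega) hco hgap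
  -- `c k ≤ y`
  have h1 : c k ≤ y := by
    refine hmin.min k hk y (fun z => (if z = l then 1 else 0) + if z = i then x else 0) hy1 ?_ ?_
    · simp [Ne.symm hlk, Ne.symm hik]
    · rw [dg_add_single a I _ hi, dg_single a I hl, ← hyx]
      ring
  -- `c i ≤ a k - x`
  obtain ⟨y', hy'⟩ : ∃ y', a i = y + y' := ⟨a i - y, by omega⟩
  have hy'1 : 1 ≤ y' := by omega
  have h2 : a l + x * a i + y' * a k = a k * a i := by
    rw [hyx, hy']
    ring
  have hxk : x < a k := by
    by_contra hge
    push Not at hge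
    have h3 : a k * a i ≤ x * a i := Nat.mul_le_mul_right _ hge
    have h4 : 1 ≤ a l := by
      have := ha l hl
      omega
    omega
  have h3 : c i ≤ a k - x := by
    refine hmin.min i hi (a k - x) (fun z => (if z = l then 1 else 0) + if z = k then y' else 0)
      (by omega) ?_ ?_
    · simp [Ne.symm hli, hik]
    · rw [dg_add_single a I _ hk, dg_single a I hl]
      have h4 : (a k - x) * a i = a k * a i - x * a i := Nat.sub_mul _ _ _
      rw [h4, ← h2]
      omega
  obtain ⟨x', hx'⟩ : ∃ x', a k = x + x' + 1 := ⟨a k - x - 1, by omega⟩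
  have h5 : u ≤ x' := by omega
  obtain ⟨y₀, hy₀⟩ : ∃ y₀, y = y₀ + 1 := ⟨y - 1, by omega⟩
  have h6 : w ≤ y₀ := by omega
  have h7 : u * a i ≤ x' * a i := Nat.mul_le_mul_right _ h5
  have h8 : w * a k ≤ y₀ * a k := Nat.mul_le_mul_right _ h6
  have h9 : x' * a i + x * a i + a i = a k * a i := by
    rw [hx']
    ring
  have h10 : y₀ * a k + a k = a l + x * a i := by
    rw [hyx, hy₀]
    ring
  have h11 : (a i - 1) * (a k - 1) + a i + a k = a k * a i + 1 := by
    obtain ⟨p, hp⟩ : ∃ p, a i = p + 1 := ⟨a i - 1, by omega⟩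
    obtain ⟨q, hq⟩ : ∃ q, a k = q + 1 := ⟨a k - 1, by omega⟩
    rw [hp, hq]
    simp only [Nat.add_sub_cancel]
    ring
  omega

theorem t_BIN : S_BIN := by
  intro ι _ B _ _ a L I v y i k hi hk hik ha hc hLk hcomb hmem hvi hvk X Y hX hY
  have hai := ha i hi
  have hak := ha k hk
  have hco := hc i hi k hk hik
  -- the relations
  have hrel : ∀ m, Rel a L I k m → ∀ x ∈ I, m x = if x = i then a k else 0 := by
    rintro m ⟨hm, x₀, hx₀, hx₀k, hmx₀⟩
    rw [hLk] at hm
    -- the other coordinates vanish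
    have hoth : ∀ l ∈ I, l ≠ i → l ≠ k → m l = 0 := by
      intro l hl hli hlk
      by_contra hml
      have hp : ∀ x, ∃ p r : ℕ, (x ∈ I → p * a i + r * a k = a x) ∧ (x = l → 1 ≤ p ∧ 1 ≤ r) := by
        intro x
        by_cases hx : x ∈ I
        · by_cases hxi : x = i
          · subst hxi
            exact ⟨1, 0, fun _ => by ring, fun h => absurd h.symm hli⟩
          · by_cases hxk : x = k
            · subst hxk
              exact ⟨0, 1, fun _ => by ring, fun h => absurd h.symm hlk⟩
            · obtain ⟨p, r, hpr⟩ := hcomb x hx hxi hxk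
              refine ⟨p, r, fun _ => hpr, ?_⟩
              rintro rfl
              have hax := ha x hx
              constructor
              · by_contra hp0
                have : p = 0 := by omega
                subst this
                have hd : a k ∣ a x := ⟨r, by rw [← hpr]; ring⟩
                have h1 := Nat.Coprime.eq_one_of_dvd (hc k hk x hx (Ne.symm hxk)) hd
                omega
              · by_contra hr0
                have : r = 0 := by omega
                subst this
                have hd : a i ∣ a x := ⟨p, by rw [← hpr]; ring⟩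
                have h1 := Nat.Coprime.eq_one_of_dvd (hc i hi x hx (Ne.symm hxi)) hd
                omega
        · refine ⟨0, 0, fun h => absurd h hx, ?_⟩
          rintro rfl
          exact absurd hl hx
      choose P R hPR hPl using hp
      have h1 : (∑ x ∈ I, m x * P x) * a i + (∑ x ∈ I, m x * R x) * a k = a i * a k := by
        rw [← hm, Finset.sum_mul, Finset.sum_mul, ← Finset.sum_add_distrib]
        refine Finset.sum_congr rfl fun x hx => ?_
        rw [← hPR x hx]
        ring
      have h2 : 1 ≤ ∑ x ∈ I, m x * P x := by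
        have h3 : m l * P l ≤ ∑ x ∈ I, m x * P x :=
          Finset.single_le_sum (f := fun x => m x * P x) (fun _ _ => Nat.zero_le _) hl
        have h4 : 0 < m l * P l := Nat.mul_pos (by omega) (hPl l rfl).1
        omega
      have h3 : 1 ≤ ∑ x ∈ I, m x * R x := by
        have h3 : m l * R l ≤ ∑ x ∈ I, m x * R x :=
          Finset.single_le_sum (f := fun x => m x * R x) (fun _ _ => Nat.zero_le _) hl
        have h4 : 0 < m l * R l := Nat.mul_pos (by omega) (hPl l rfl).2
        omega
      exact Pool.Agent.H61.Fu.ne_pos_comb hai hak hco h2 h3 h1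
    have hsum : m i * a i + m k * a k = a i * a k := by
      rw [← hm]
      have h1 := Finset.add_sum_erase I (fun x => m x * a x) hi
      have h2 := Finset.add_sum_erase (I.erase i) (fun x => m x * a x)
        (Finset.mem_erase.2 ⟨Ne.symm hik, hk⟩)
      have h3 : ∑ x ∈ (I.erase i).erase k, m x * a x = 0 := by
        refine Finset.sum_eq_zero fun x hx => ?_
        rw [Finset.mem_erase, Finset.mem_erase] at hx
        rw [hoth x hx.2.2 hx.2.1 hx.1, zero_mul]
      omega
    have hmi : 1 ≤ m i := by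
      by_contra h0
      have : x₀ = i := by
        by_contra hne
        exact hmx₀ (hoth x₀ hx₀ hne hx₀k)
      subst this
      omega
    have hmk : m k = 0 := by
      by_contra h0
      exact Pool.Agent.H61.Fu.ne_pos_comb hai hak hco hmi (by omega : 1 ≤ m k) hsum
    have hmi2 : m i = a k := by
      rw [hmk, zero_mul, add_zero, mul_comm (a i)] at hsum
      exact Nat.eq_of_mul_eq_mul_right (by omega) hsum
    intro x hx
    by_cases hxi : x = i
    · rw [if_pos hxi, hxi, hmi2]
    · rw [if_neg hxi]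
      by_cases hxk : x = k
      · rw [hxk, hmk]
      · exact hoth x hx hxi hxk
  -- the span
  have hsub : {w : ℂ × B | ∃ m, Rel a L I k m ∧ w = ∏ x ∈ I, ((v x, y x) : ℂ × B) ^ m x} ⊆
      {((v i, y i) : ℂ × B) ^ a k} := by
    rintro w ⟨m, hm, rfl⟩
    rw [Set.mem_singleton_iff]
    rw [Finset.prod_congr rfl (fun x hx => by rw [hrel m hm x hx]), Finset.prod_eq_single i]
    · rw [if_pos rfl]
    · intro x _ hx
      rw [if_neg hx, pow_zero]
    · intro h
      exact absurd hi h
  have h1 := Submodule.span_mono hsub hmem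
  rw [Submodule.mem_span_singleton] at h1
  obtain ⟨t, ht⟩ := h1
  rw [hLk] at ht
  have ht1 : t * v i ^ a k = v k ^ a i := by
    have := congrArg Prod.fst ht
    simpa using this
  have ht2 : algebraMap ℂ B t * y i ^ a k = y k ^ a i := by
    have := congrArg Prod.snd ht
    simpa [Algebra.smul_def] using this
  rw [hX, hY, mul_pow, mul_pow, ← map_pow, ← map_pow, ← ht1, map_mul] at ht2
  have hne : t * v i ^ a k ≠ 0 := by
    rw [ht1]
    exact pow_ne_zero _ hvk
  have hunit : IsUnit (algebraMap ℂ B (t * v i ^ a k)) :=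
    (IsUnit.mk0 _ hne).map (algebraMap ℂ B)
  have h3 : ((X : B) ^ a k) * algebraMap ℂ B (t * v i ^ a k) =
      ((Y : B) ^ a i) * algebraMap ℂ B (t * v i ^ a k) := by
    rw [map_mul]
    linear_combination ht2
  have h4 := hunit.mul_right_cancel h3
  ext
  push_cast
  exact h4

end Pool.Agent.K3h10.FG
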